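import Mathlib

/-!
# MP_51bff2_lc, Q1: a polynomial dual bound for one monotone polynomial inequality
-/

namespace Pool.Agent.Results.MP_51bff2_lc.DualBound

open Finset

/-! ## Cells of a product function -/

/-- the weight of the level `l` over the base `b` for a function `p` -/
def om (p : ℕ → ℝ) (b l : ℕ) : ℝ := if l = b then p b else p l - p (l - 1)

lemma om_nonneg {p : ℕ → ℝ} (h0 : ∀ k, 0 ≤ p k) (hm : Monotone p) (b l : ℕ) : 0 ≤ om p b l := by
  unfold om
  split_ifs
  · exact h0 b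
  · have := hm (Nat.sub_le l 1)
    linarith

lemma sum_om (p : ℕ → ℝ) (b y : ℕ) (h : b ≤ y) : ∑ l ∈ Icc b y, om p b l = p y := by
  induction y, h using Nat.le_induction with
  | base => simp [om]
  | succ y hy ih =>
    rw [← Finset.insert_Icc_right_eq_Icc_add_one (by omega), Finset.sum_insert (by simp), ih]
    have : y + 1 ≠ b := by omega
    simp [om, this]

variable {n : ℕ}

/-- weight of the cell `z` over the base `u` -/
def mu (p : Fin n → ℕ → ℝ) (u z : Fin n → ℕ) : ℝ := ∏ j, om (p j) (u j) (z j)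

lemma mu_nonneg {p : Fin n → ℕ → ℝ} (h0 : ∀ j k, 0 ≤ p j k) (hm : ∀ j, Monotone (p j))
    (u z : Fin n → ℕ) : 0 ≤ mu p u z :=
  Finset.prod_nonneg fun j _ => om_nonneg (h0 j) (hm j) _ _

lemma sum_mu (p : Fin n → ℕ → ℝ) (u y : Fin n → ℕ) (h : u ≤ y) :
    ∑ z ∈ Icc u y, mu p u z = ∏ j, p j (y j) := by
  have h1 : Icc u y = Fintype.piFinset fun j => Icc (u j) (y j) := rfl
  rw [h1]
  unfold mu
  rw [← Finset.prod_univ_sum (fun j => Icc (u j) (y j)) (fun j l => om (p j) (u j) l)]
  exact Finset.prod_congr rfl fun j _ => sum_om _ _ _ (h j)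

lemma mu_self (p : Fin n → ℕ → ℝ) (u : Fin n → ℕ) : mu p u u = ∏ j, p j (u j) := by
  unfold mu
  exact Finset.prod_congr rfl fun j _ => by simp [om]

lemma prod_mono_of {p : Fin n → ℕ → ℝ} (h0 : ∀ j k, 0 ≤ p j k) (hm : ∀ j, Monotone (p j))
    {u a : Fin n → ℕ} (h : u ≤ a) : ∏ j, p j (u j) ≤ ∏ j, p j (a j) :=
  Finset.prod_le_prod (fun j _ => h0 j _) fun j _ => hm j (h j)

/-- the bound of the cells of one class below one coordinate of the representative -/
lemma class_bound {p : Fin n → ℕ → ℝ} (h0 : ∀ j k, 0 ≤ p j k) (hm : ∀ j, Monotone (p j))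
    {u a r : Fin n → ℕ} {i j : Fin n} (hij : i ≠ j) (hua : u ≤ a) (hui : u i < r i)
    (hra : r i ≤ a i) (hrj : r j = a j + 1)
    (hrat : om (p j) (u j) (r j) * p i (r i - 1) ≤ p j (r j - 1) * om (p i) (u i) (r i))
    (T : Finset (Fin n → ℕ))
    (hT : ∀ v ∈ T, u ≤ v ∧ v j = a j + 1 ∧ v i < r i ∧ ∀ k, k ≠ j → v k ≤ a k) :
    ∑ v ∈ T, mu p u v ≤ ∏ k, p k (a k) - ∏ k, p k (u k) := by
  classical
  set S : Fin n → Finset ℕ := fun k => if k = j then {a j + 1} else
    if k = i then Icc (u i) (r i - 1) else Icc (u k) (a k) with hS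
  have hsub : T ⊆ Fintype.piFinset S := by
    intro v hv
    obtain ⟨h1, h2, h3, h4⟩ := hT v hv
    rw [Fintype.mem_piFinset]
    intro k
    simp only [hS]
    by_cases hkj : k = j
    · subst hkj; simp [h2]
    · rw [if_neg hkj]
      by_cases hki : k = i
      · subst hki
        rw [if_pos rfl, Finset.mem_Icc]
        exact ⟨h1 k, by omega⟩
      · rw [if_neg hki, Finset.mem_Icc]
        exact ⟨h1 k, h4 k hkj⟩
  have e1 : ∑ v ∈ T, mu p u v ≤ ∑ v ∈ Fintype.piFinset S, mu p u v :=
    Finset.sum_le_sum_of_subset_of_nonneg hsub fun v _ _ => mu_nonneg h0 hm u v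
  have e2 : ∑ v ∈ Fintype.piFinset S, mu p u v = ∏ k, ∑ l ∈ S k, om (p k) (u k) l := by
    unfold mu
    exact (Finset.prod_univ_sum S (fun k l => om (p k) (u k) l)).symm
  set q : Fin n → ℝ := fun k => ∑ l ∈ S k, om (p k) (u k) l with hq
  have qj : q j = om (p j) (u j) (a j + 1) := by simp [hq, hS]
  have qi : q i = p i (r i - 1) := by
    have hSi : S i = Icc (u i) (r i - 1) := by simp [hS, hij]
    simp only [hq, hSi]
    exact sum_om _ _ _ (by omega)
  have qk : ∀ k, k ≠ i → k ≠ j → q k = p k (a k) := by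
    intro k hk1 hk2
    simp only [hq, hS, if_neg hk1, if_neg hk2]
    exact sum_om _ _ _ (hua k)
  have hi : i ∈ (univ : Finset (Fin n)).erase j := by simp [hij]
  have split : ∀ w : Fin n → ℝ, ∏ k, w k = w j * (w i * ∏ k ∈ (univ.erase j).erase i, w k) := by
    intro w
    rw [Finset.mul_prod_erase _ w hi, Finset.mul_prod_erase _ w (Finset.mem_univ j)]
  set R : ℝ := ∏ k ∈ ((univ : Finset (Fin n)).erase j).erase i, p k (a k) with hR
  have hR0 : 0 ≤ R := Finset.prod_nonneg fun k _ => h0 k _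
  have hRq : ∏ k ∈ ((univ : Finset (Fin n)).erase j).erase i, q k = R := by
    refine Finset.prod_congr rfl fun k hk => ?_
    simp only [Finset.mem_erase, Finset.mem_univ, and_true] at hk
    exact qk k hk.1 hk.2
  have hgu : ∏ k, p k (u k) ≤ p j (a j) * (p i (u i) * R) := by
    rw [split fun k => p k (u k)]
    have hRu : ∏ k ∈ ((univ : Finset (Fin n)).erase j).erase i, p k (u k) ≤ R :=
      Finset.prod_le_prod (fun k _ => h0 k _) fun k _ => hm k (hua k)
    have hRu0 : 0 ≤ ∏ k ∈ ((univ : Finset (Fin n)).erase j).erase i, p k (u k) :=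
      Finset.prod_nonneg fun k _ => h0 k _
    exact mul_le_mul (hm j (hua j)) (mul_le_mul_of_nonneg_left hRu (h0 i _))
      (mul_nonneg (h0 i _) hRu0) (h0 j _)
  have hga : ∏ k, p k (a k) = p j (a j) * (p i (a i) * R) := split fun k => p k (a k)
  have hgq : ∏ k, q k = om (p j) (u j) (a j + 1) * (p i (r i - 1) * R) := by
    rw [split q, qj, qi, hRq]
  have hrj' : p j (r j - 1) = p j (a j) := by rw [hrj]; simp
  rw [hrj'] at hrat
  rw [hrj] at hrat
  have h5 : om (p i) (u i) (r i) ≤ p i (a i) - p i (u i) := by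
    have h6 : r i ≠ u i := by omega
    simp only [om, if_neg h6]
    have h7 : p i (r i) ≤ p i (a i) := hm i hra
    have h8 : p i (u i) ≤ p i (r i - 1) := hm i (by omega)
    linarith
  calc ∑ v ∈ T, mu p u v ≤ ∏ k, q k := by rw [← e2]; exact e1
    _ = (om (p j) (u j) (a j + 1) * p i (r i - 1)) * R := by rw [hgq]; ring
    _ ≤ (p j (a j) * om (p i) (u i) (r i)) * R := mul_le_mul_of_nonneg_right hrat hR0
    _ ≤ (p j (a j) * (p i (a i) - p i (u i))) * R :=
        mul_le_mul_of_nonneg_right (mul_le_mul_of_nonneg_left h5 (h0 j _)) hR0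
    _ ≤ ∏ k, p k (a k) - ∏ k, p k (u k) := by rw [hga]; nlinarith [hgu]

/-- the private cells of all elements except the representatives -/
lemma priv {p : Fin n → ℕ → ℝ} (h0 : ∀ j k, 0 ≤ p j k) (hm : ∀ j, Monotone (p j))
    {u : Fin n → ℕ} {W Z : Finset (Fin n → ℕ)} (hZu : ∀ a ∈ Z, u ≤ a) (hWu : ∀ v ∈ W, u ≤ v)
    (hanti : ∀ v ∈ W, ∀ v' ∈ W, v ≤ v' → v = v')
    (ka : (Fin n → ℕ) → (Fin n → ℕ)) (kj : (Fin n → ℕ) → Fin n)
    (hka : ∀ v ∈ W, ka v ∈ Z)
    (hlev : ∀ v ∈ W, v (kj v) = ka v (kj v) + 1)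
    (hle : ∀ v ∈ W, ∀ i, i ≠ kj v → v i ≤ ka v i)
    (hrat : ∀ v ∈ W, ∀ i, u i < v i → om (p (kj v)) (u (kj v)) (v (kj v)) * p i (v i - 1) ≤
      p (kj v) (v (kj v) - 1) * om (p i) (u i) (v i))
    (rep : (Fin n → ℕ) → Fin n → (Fin n → ℕ))
    (hrep : ∀ v ∈ W, rep (ka v) (kj v) ∈ W ∧ ka (rep (ka v) (kj v)) = ka v ∧
      kj (rep (ka v) (kj v)) = kj v) :
    ∑ v ∈ W.filter (fun v => v ≠ rep (ka v) (kj v)), mu p u v ≤
      (n : ℝ) ^ 2 * ∑ a ∈ Z, (∏ j, p j (a j) - ∏ j, p j (u j)) := by
  classical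
  set W' := W.filter (fun v => v ≠ rep (ka v) (kj v)) with hW'
  set cond : (Fin n → ℕ) → (Fin n → ℕ) × Fin n × Fin n → Prop := fun v c =>
    ka v = c.1 ∧ kj v = c.2.1 ∧ v c.2.2 < rep c.1 c.2.1 c.2.2 with hcond
  set C : Finset ((Fin n → ℕ) × Fin n × Fin n) := Z ×ˢ (univ ×ˢ univ) with hC
  have s1 : ∑ v ∈ W', mu p u v ≤ ∑ v ∈ W', ∑ c ∈ C, if cond v c then mu p u v else 0 := by
    refine Finset.sum_le_sum fun v hv => ?_
    rw [hW', Finset.mem_filter] at hv
    obtain ⟨hvW, hvr⟩ := hv
    obtain ⟨hr1, hr2, hr3⟩ := hrep v hvW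
    have hex : ∃ i, v i < rep (ka v) (kj v) i := by
      by_contra hcon
      push Not at hcon
      exact hvr (hanti _ hr1 _ hvW hcon).symm
    obtain ⟨i, hi⟩ := hex
    have hcv : cond v (ka v, kj v, i) := ⟨rfl, rfl, hi⟩
    have := Finset.single_le_sum (f := fun c => if cond v c then mu p u v else 0) (s := C)
      (fun c _ => by
        show 0 ≤ if cond v c then mu p u v else 0
        split_ifs
        · exact mu_nonneg h0 hm u v
        · exact le_refl _) (a := (ka v, kj v, i))
      (by simp [hC, hka v hvW])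
    simpa [if_pos hcv] using this
  rw [Finset.sum_comm] at s1
  refine s1.trans ?_
  have s2 : ∀ c ∈ C, (∑ v ∈ W', if cond v c then mu p u v else 0) ≤
      ∏ k, p k (c.1 k) - ∏ k, p k (u k) := by
    rintro ⟨a, j, i⟩ hc
    have haZ : a ∈ Z := by simpa [hC] using hc
    rw [← Finset.sum_filter]
    set T := W'.filter (fun v => cond v (a, j, i)) with hTdef
    rcases T.eq_empty_or_nonempty with hT | ⟨v0, hv0⟩
    · rw [hT, Finset.sum_empty]
      exact sub_nonneg.2 (prod_mono_of h0 hm (hZu a haZ))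
    · have hmem : ∀ v ∈ T, v ∈ W ∧ ka v = a ∧ kj v = j ∧ v i < rep a j i := by
        intro v hv
        rw [hTdef, Finset.mem_filter, hW', Finset.mem_filter] at hv
        exact ⟨hv.1.1, hv.2.1, hv.2.2.1, hv.2.2.2⟩
      obtain ⟨hv0W, hv0a, hv0j, hv0i⟩ := hmem v0 hv0
      obtain ⟨hr1, hr2, hr3⟩ := hrep v0 hv0W
      rw [hv0a, hv0j] at hr1 hr2 hr3
      set r := rep a j with hr
      have hrj : r j = a j + 1 := by
        have := hlev r hr1
        rwa [hr2, hr3] at this
      have hij : i ≠ j := by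
        rintro rfl
        have := hlev v0 hv0W
        rw [hv0a, hv0j] at this
        omega
      have hui : u i < r i := lt_of_le_of_lt (hWu v0 hv0W i) hv0i
      have hra : r i ≤ a i := by
        have := hle r hr1 i (by rw [hr3]; exact hij)
        rwa [hr2] at this
      have hrt := hrat r hr1 i hui
      rw [hr3] at hrt
      refine class_bound h0 hm hij (hZu a haZ) hui hra hrj hrt T ?_
      intro v hv
      obtain ⟨g1, g2, g3, g4⟩ := hmem v hv
      refine ⟨hWu v g1, ?_, g4, ?_⟩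
      · have := hlev v g1
        rwa [g2, g3] at this
      · intro k hk
        have := hle v g1 k (by rw [g3]; exact hk)
        rwa [g2] at this
  refine (Finset.sum_le_sum s2).trans (le_of_eq ?_)
  rw [hC, Finset.sum_product]
  simp only [Finset.sum_const, Finset.card_product, Finset.card_univ, Fintype.card_fin,
    nsmul_eq_mul]
  rw [Finset.mul_sum]
  refine Finset.sum_congr rfl fun a _ => ?_
  push_cast
  ring

open scoped Classical in
/-- the cells strictly between the base and the elements -/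
lemma middle {p : Fin n → ℕ → ℝ} (h0 : ∀ j k, 0 ≤ p j k) (hm : ∀ j, Monotone (p j))
    {u : Fin n → ℕ} {V' Z : Finset (Fin n → ℕ)} (hZu : ∀ a ∈ Z, u ≤ a)
    {B : ℝ} (hB : 0 ≤ B)
    (hcell : ∀ z, u ≤ z → z ≠ u → ((V'.filter fun v => z ≤ v ∧ z ≠ v).card : ℝ) ≤
      B * ((Z.filter fun a => z ≤ a).card : ℝ)) :
    ∑ v ∈ V', ∑ z ∈ ((Icc u v).erase u).erase v, mu p u z ≤
      B * ∑ a ∈ Z, (∏ j, p j (a j) - ∏ j, p j (u j)) := by
  set Box : Finset (Fin n → ℕ) := (V'.biUnion fun v => Icc u v).erase u with hBox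
  have hbz : ∀ z ∈ Box, u ≤ z ∧ z ≠ u := by
    intro z hz
    rw [hBox, Finset.mem_erase, Finset.mem_biUnion] at hz
    obtain ⟨h1, v, _, h2⟩ := hz
    exact ⟨(Finset.mem_Icc.1 h2).1, h1⟩
  have e1 : ∀ v ∈ V', ∑ z ∈ ((Icc u v).erase u).erase v, mu p u z =
      ∑ z ∈ Box, if z ≤ v ∧ z ≠ v then mu p u z else 0 := by
    intro v hv
    rw [← Finset.sum_filter]
    refine Finset.sum_congr ?_ fun _ _ => rfl
    ext z
    simp only [hBox, Finset.mem_erase, Finset.mem_filter, Finset.mem_biUnion, Finset.mem_Icc]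
    constructor
    · rintro ⟨h1, h2, h3, h4⟩
      exact ⟨⟨h2, v, hv, h3, h4⟩, h4, h1⟩
    · rintro ⟨⟨h2, w, _, h3, _⟩, h4, h1⟩
      exact ⟨h1, h2, h3, h4⟩
  rw [Finset.sum_congr rfl e1, Finset.sum_comm]
  have e2 : ∀ z ∈ Box, (∑ v ∈ V', if z ≤ v ∧ z ≠ v then mu p u z else 0) ≤
      ∑ a ∈ Z, if z ≤ a then B * mu p u z else 0 := by
    intro z hz
    obtain ⟨h1, h2⟩ := hbz z hz
    rw [← Finset.sum_filter, ← Finset.sum_filter, Finset.sum_const, Finset.sum_const,
      nsmul_eq_mul, nsmul_eq_mul]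
    have h3 := hcell z h1 h2
    have h4 := mu_nonneg h0 hm u z
    calc ((V'.filter fun v => z ≤ v ∧ z ≠ v).card : ℝ) * mu p u z
        ≤ (B * ((Z.filter fun a => z ≤ a).card : ℝ)) * mu p u z :=
          mul_le_mul_of_nonneg_right h3 h4
      _ = _ := by ring
  refine (Finset.sum_le_sum e2).trans ?_
  rw [Finset.sum_comm, Finset.mul_sum]
  refine Finset.sum_le_sum fun a ha => ?_
  rw [← Finset.sum_filter, ← Finset.mul_sum]
  refine mul_le_mul_of_nonneg_left ?_ hB
  have h5 : ∑ z ∈ (Icc u a).erase u, mu p u z = ∏ j, p j (a j) - ∏ j, p j (u j) := by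
    have h6 := Finset.sum_erase_eq_sub (s := Icc u a) (f := mu p u) (a := u)
      (Finset.mem_Icc.2 ⟨le_refl _, hZu a ha⟩)
    rw [h6, sum_mu p u a (hZu a ha), mu_self]
  rw [← h5]
  refine Finset.sum_le_sum_of_subset_of_nonneg ?_ fun z _ _ => mu_nonneg h0 hm u z
  intro z hz
  rw [Finset.mem_filter] at hz
  obtain ⟨h1, h2⟩ := hbz z hz.1
  exact Finset.mem_erase.2 ⟨h2, Finset.mem_Icc.2 ⟨h1, hz.2⟩⟩

/-- a coordinate with the least ratio of increment and lower value -/
lemma exists_ratio {p : Fin n → ℕ → ℝ} (h0 : ∀ j k, 0 ≤ p j k) (hm : ∀ j, Monotone (p j))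
    {u v : Fin n → ℕ} (huv : u ≤ v) (hne : u ≠ v) :
    ∃ j, u j < v j ∧ ∀ i, u i < v i → om (p j) (u j) (v j) * p i (v i - 1) ≤
      p j (v j - 1) * om (p i) (u i) (v i) := by
  classical
  have hex : ∃ j, u j < v j := by
    by_contra hcon
    push Not at hcon
    exact hne (le_antisymm huv hcon)
  by_cases hz : ∃ j, u j < v j ∧ om (p j) (u j) (v j) = 0
  · obtain ⟨j, h1, h2⟩ := hz
    refine ⟨j, h1, fun i _ => ?_⟩
    rw [h2, zero_mul]
    exact mul_nonneg (h0 _ _) (om_nonneg (h0 i) (hm i) _ _)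
  · push Not at hz
    have hpos : ∀ i, u i < v i → 0 < om (p i) (u i) (v i) := fun i hi =>
      lt_of_le_of_ne (om_nonneg (h0 i) (hm i) _ _) (Ne.symm (hz i hi))
    obtain ⟨j, hj, hmax⟩ := Finset.exists_max_image (univ.filter fun j => u j < v j)
      (fun j => p j (v j - 1) / om (p j) (u j) (v j))
      ⟨hex.choose, by simpa using hex.choose_spec⟩
    rw [Finset.mem_filter] at hj
    refine ⟨j, hj.2, fun i hi => ?_⟩
    have h3 := hmax i (by simpa using hi)
    rw [div_le_div_iff₀ (hpos i hi) (hpos j hj.2)] at h3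
    linarith

/-! ## The main induction -/

variable {ι : Type*} [Fintype ι]

/-- a sum of products of functions of one variable -/
def F (c : ι → ℝ) (p : ι → Fin n → ℕ → ℝ) (x : Fin n → ℕ) : ℝ := ∑ i, c i * ∏ j, p i j (x j)

/-- the situation of the main lemma -/
structure Cov (c : ι → ℝ) (p : ι → Fin n → ℕ → ℝ) (V Y : Finset (Fin n → ℕ)) (t : ℝ) : Prop where
  c0 : ∀ i, 0 ≤ c i
  p0 : ∀ i j k, 0 ≤ p i j k
  pm : ∀ i j, Monotone (p i j)
  hV : ∀ v ∈ V, t < F c p v
  hY : ∀ a ∈ Y, F c p a ≤ t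
  cov : ∀ v ∈ V, ∀ j, 0 < v j → ∃ a ∈ Y, v j = a j + 1 ∧ ∀ k, k ≠ j → v k ≤ a k

variable {c : ι → ℝ} {p : ι → Fin n → ℕ → ℝ} {V Y : Finset (Fin n → ℕ)} {t : ℝ}

lemma F_mono (hC : Cov c p V Y t) {x y : Fin n → ℕ} (h : x ≤ y) : F c p x ≤ F c p y := by
  unfold F
  exact Finset.sum_le_sum fun i _ =>
    mul_le_mul_of_nonneg_left (prod_mono_of (hC.p0 i) (hC.pm i) h) (hC.c0 i)

lemma not_le (hC : Cov c p V Y t) {v a : Fin n → ℕ} (hv : v ∈ V) (ha : a ∈ Y) : ¬ v ≤ a := by
  intro h
  have h1 := F_mono hC h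
  have h2 := hC.hV v hv
  have h3 := hC.hY a ha
  linarith

lemma anti (hC : Cov c p V Y t) {v v' : Fin n → ℕ} (hv : v ∈ V) (hv' : v' ∈ V) (h : v ≤ v') :
    v = v' := by
  by_contra hne
  have hex : ∃ j, v j < v' j := by
    by_contra hcon
    push Not at hcon
    exact hne (le_antisymm h hcon)
  obtain ⟨j, hj⟩ := hex
  obtain ⟨a, ha, h1, h2⟩ := hC.cov v' hv' j (by omega)
  refine not_le hC hv ha fun k => ?_
  by_cases hk : k = j
  · subst hk
    have : v k ≤ a k := by omega
    exact this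
  · exact (h k).trans (h2 k hk)

open scoped Classical in
/-- the elements above `u` are few when this holds for all larger points -/
lemma step (hC : Cov c p V Y t) (u : Fin n → ℕ) (hu : ∃ a ∈ Y, u ≤ a) {B : ℝ} (hB : 0 ≤ B)
    (hcell : ∀ z, u ≤ z → z ≠ u → ((V.filter fun v => z ≤ v ∧ z ≠ v).card : ℝ) ≤
      B * ((Y.filter fun a => z ≤ a).card : ℝ)) :
    ((V.filter fun v => u ≤ v).card : ℝ) ≤
      (B + n * (n + Fintype.card ι)) * ((Y.filter fun a => u ≤ a).card : ℝ) := by
  set W := V.filter fun v => u ≤ v with hW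
  set Z := Y.filter fun a => u ≤ a with hZ
  have hWV : ∀ v ∈ W, v ∈ V ∧ u ≤ v := fun v hv => by simpa [hW] using hv
  have hZY : ∀ a ∈ Z, a ∈ Y ∧ u ≤ a := fun a ha => by simpa [hZ] using ha
  obtain ⟨a0, ha0, hua0⟩ := hu
  have hFu : F c p u ≤ t := (F_mono hC hua0).trans (hC.hY a0 ha0)
  have huv : ∀ v ∈ W, u ≠ v := by
    rintro v hv rfl
    have := hC.hV _ (hWV _ hv).1
    linarith
  rcases W.eq_empty_or_nonempty with hWe | ⟨w0, hw0⟩
  · rw [hWe]
    simp only [Finset.card_empty, Nat.cast_zero]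
    positivity
  have hne0 : Nonempty (Fin n) := by
    by_contra hcon
    rw [not_nonempty_iff] at hcon
    exact huv w0 hw0 (funext fun j => hcon.elim j)
  -- the choices
  have hch : ∀ i : ι, ∀ v : Fin n → ℕ, v ∈ W → ∃ (a : Fin n → ℕ) (j : Fin n), (a ∈ Z ∧
      v j = a j + 1 ∧ (∀ k, k ≠ j → v k ≤ a k) ∧
      ∀ k, u k < v k → om (p i j) (u j) (v j) * p i k (v k - 1) ≤
        p i j (v j - 1) * om (p i k) (u k) (v k)) := by
    intro i v hv
    obtain ⟨j, h1, h2⟩ := exists_ratio (hC.p0 i) (hC.pm i) (hWV v hv).2 (huv v hv)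
    obtain ⟨a, ha, h3, h4⟩ := hC.cov v (hWV v hv).1 j (by omega)
    refine ⟨a, j, ?_, h3, h4, h2⟩
    rw [hZ, Finset.mem_filter]
    refine ⟨ha, fun k => ?_⟩
    by_cases hk : k = j
    · subst hk
      have : u k ≤ a k := by omega
      exact this
    · exact ((hWV v hv).2 k).trans (h4 k hk)
  choose! ka kj hka hlev hle hrat using hch
  -- representatives
  have hrp : ∀ i : ι, ∀ a : Fin n → ℕ, ∀ j : Fin n, ∃ r : Fin n → ℕ,
      (∃ v ∈ W, ka i v = a ∧ kj i v = j) → (r ∈ W ∧ ka i r = a ∧ kj i r = j) := by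
    intro i a j
    by_cases h : ∃ v ∈ W, ka i v = a ∧ kj i v = j
    · obtain ⟨v, h1, h2⟩ := h
      exact ⟨v, fun _ => ⟨h1, h2⟩⟩
    · exact ⟨a, fun h' => absurd h' h⟩
  choose rep hrep using hrp
  set Ex : Finset (Fin n → ℕ) := univ.biUnion fun i : ι =>
    (Z ×ˢ (univ : Finset (Fin n))).image fun c => rep i c.1 c.2 with hEx
  have hExc : (Ex.card : ℝ) ≤ n * Fintype.card ι * (Z.card : ℝ) := by
    have h1 : Ex.card ≤ ∑ i : ι, (Z ×ˢ (univ : Finset (Fin n))).card := by
      refine Finset.card_biUnion_le.trans (Finset.sum_le_sum fun i _ => Finset.card_image_le)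
    have h2 : (∑ i : ι, (Z ×ˢ (univ : Finset (Fin n))).card) = Fintype.card ι * (Z.card * n) := by
      simp [Finset.card_product]
    rw [h2] at h1
    have h3 : (Ex.card : ℝ) ≤ ((Fintype.card ι * (Z.card * n) : ℕ) : ℝ) := by exact_mod_cast h1
    push_cast at h3
    linarith
  set V' := W \ Ex with hV'
  have hV'W : ∀ v ∈ V', v ∈ W := fun v hv => (Finset.mem_sdiff.1 hv).1
  have hcard : (W.card : ℝ) ≤ V'.card + Ex.card := by
    have h1 : W.card ≤ V'.card + Ex.card := by
      exact Finset.card_le_card_sdiff_add_card (s := W) (t := Ex)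
    exact_mod_cast h1
  -- the estimate for one product
  have hone : ∀ i : ι, ∑ v ∈ V', (∏ j, p i j (v j) - ∏ j, p i j (u j)) ≤
      (B + n ^ 2) * ∑ a ∈ Z, (∏ j, p i j (a j) - ∏ j, p i j (u j)) := by
    intro i
    have e1 : ∀ v ∈ V', (∏ j, p i j (v j) - ∏ j, p i j (u j)) =
        mu (p i) u v + ∑ z ∈ ((Icc u v).erase u).erase v, mu (p i) u z := by
      intro v hv
      have huv' : u ≤ v := (hWV v (hV'W v hv)).2
      have h6 := Finset.sum_erase_eq_sub (s := Icc u v) (f := mu (p i) u) (a := u)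
        (Finset.mem_Icc.2 ⟨le_refl _, huv'⟩)
      have h7 := Finset.sum_erase_eq_sub (s := (Icc u v).erase u) (f := mu (p i) u) (a := v)
        (Finset.mem_erase.2 ⟨(huv v (hV'W v hv)).symm, Finset.mem_Icc.2 ⟨huv', le_refl _⟩⟩)
      rw [h7, h6, sum_mu (p i) u v huv', mu_self]
      ring
    rw [Finset.sum_congr rfl e1, Finset.sum_add_distrib]
    have e2 : ∑ v ∈ V', mu (p i) u v ≤
        (n : ℝ) ^ 2 * ∑ a ∈ Z, (∏ j, p i j (a j) - ∏ j, p i j (u j)) := by
      refine le_trans ?_ (priv (hC.p0 i) (hC.pm i) (fun a ha => (hZY a ha).2)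
        (fun v hv => (hWV v hv).2) (fun v hv v' hv' h => anti hC (hWV v hv).1 (hWV v' hv').1 h)
        (ka i) (kj i) (fun v hv => hka i v hv) (fun v hv => hlev i v hv)
        (fun v hv => hle i v hv) (fun v hv => hrat i v hv) (rep i)
        (fun v hv => hrep i _ _ ⟨v, hv, rfl, rfl⟩))
      refine Finset.sum_le_sum_of_subset_of_nonneg ?_ fun z _ _ =>
        mu_nonneg (hC.p0 i) (hC.pm i) u z
      intro v hv
      rw [Finset.mem_filter]
      refine ⟨hV'W v hv, fun heq => ?_⟩
      refine (Finset.mem_sdiff.1 hv).2 ?_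
      rw [hEx, Finset.mem_biUnion]
      refine ⟨i, Finset.mem_univ _, Finset.mem_image.2 ⟨(ka i v, kj i v), ?_, heq.symm⟩⟩
      simp [hka i v (hV'W v hv)]
    have e3 := middle (hC.p0 i) (hC.pm i) (u := u) (V' := V') (Z := Z)
      (fun a ha => (hZY a ha).2) hB (fun z hz1 hz2 => by
        refine (le_trans ?_ (hcell z hz1 hz2)).trans ?_
        · have : (V'.filter fun v => z ≤ v ∧ z ≠ v) ⊆ (V.filter fun v => z ≤ v ∧ z ≠ v) :=
            Finset.filter_subset_filter _ fun v hv => (hWV v (hV'W v hv)).1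
          exact_mod_cast Finset.card_le_card this
        · refine mul_le_mul_of_nonneg_left ?_ hB
          have : (Y.filter fun a => z ≤ a) ⊆ (Z.filter fun a => z ≤ a) := by
            intro a ha
            rw [Finset.mem_filter] at ha
            rw [Finset.mem_filter, hZ, Finset.mem_filter]
            exact ⟨⟨ha.1, hz1.trans ha.2⟩, ha.2⟩
          exact_mod_cast Finset.card_le_card this)
    linarith
  -- the sum over all products
  have hall : ∑ v ∈ V', (F c p v - F c p u) ≤ (B + n ^ 2) * ∑ a ∈ Z, (F c p a - F c p u) := by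
    have e1 : ∀ S : Finset (Fin n → ℕ), ∑ v ∈ S, (F c p v - F c p u) =
        ∑ i, c i * ∑ v ∈ S, (∏ j, p i j (v j) - ∏ j, p i j (u j)) := by
      intro S
      simp only [F, Finset.mul_sum]
      rw [Finset.sum_comm]
      refine Finset.sum_congr rfl fun v _ => ?_
      rw [← Finset.sum_sub_distrib]
      refine Finset.sum_congr rfl fun i _ => ?_
      ring
    rw [e1, e1, Finset.mul_sum]
    refine Finset.sum_le_sum fun i _ => ?_
    calc c i * ∑ v ∈ V', (∏ j, p i j (v j) - ∏ j, p i j (u j))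
        ≤ c i * ((B + n ^ 2) * ∑ a ∈ Z, (∏ j, p i j (a j) - ∏ j, p i j (u j))) :=
          mul_le_mul_of_nonneg_left (hone i) (hC.c0 i)
      _ = _ := by ring
  have hZt : ∑ a ∈ Z, (F c p a - F c p u) ≤ (Z.card : ℝ) * (t - F c p u) := by
    have := Finset.sum_le_card_nsmul Z (fun a => F c p a - F c p u) (t - F c p u)
      (fun a ha => by
        have := hC.hY a (hZY a ha).1
        linarith)
    simpa [nsmul_eq_mul] using this
  have hBn : (0 : ℝ) ≤ B + n ^ 2 := by positivity
  have hV'c : (V'.card : ℝ) ≤ (B + n ^ 2) * Z.card := by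
    rcases V'.eq_empty_or_nonempty with he | hne
    · rw [he]
      simp only [Finset.card_empty, Nat.cast_zero]
      positivity
    · have h1 : (V'.card : ℝ) * (t - F c p u) < ∑ v ∈ V', (F c p v - F c p u) := by
        have : ∑ v ∈ V', (t - F c p u) < ∑ v ∈ V', (F c p v - F c p u) :=
          Finset.sum_lt_sum_of_nonempty hne fun v hv => by
            have := hC.hV v (hWV v (hV'W v hv)).1
            linarith
        rwa [Finset.sum_const, nsmul_eq_mul] at this
      have h2 : (V'.card : ℝ) * (t - F c p u) < ((B + n ^ 2) * Z.card) * (t - F c p u) := by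
        calc (V'.card : ℝ) * (t - F c p u) < _ := h1
          _ ≤ _ := hall
          _ ≤ (B + n ^ 2) * ((Z.card : ℝ) * (t - F c p u)) := mul_le_mul_of_nonneg_left hZt hBn
          _ = _ := by ring
      have h3 : 0 ≤ t - F c p u := by linarith
      exact (lt_of_mul_lt_mul_right h2 h3).le
  calc (W.card : ℝ) ≤ V'.card + Ex.card := hcard
    _ ≤ (B + n ^ 2) * Z.card + n * Fintype.card ι * (Z.card : ℝ) := add_le_add hV'c hExc
    _ = _ := by ring

open scoped Classical in
/-- the number of pairs of a coordinate and an element of `Y` that is not below `u` there -/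
def K (Y : Finset (Fin n → ℕ)) (u : Fin n → ℕ) : ℕ :=
  (((univ : Finset (Fin n)) ×ˢ Y).filter fun c => u c.1 ≤ c.2 c.1).card

open scoped Classical in
lemma main_bound (hC : Cov c p V Y t) : ∀ (k : ℕ) (u : Fin n → ℕ), K Y u ≤ k →
    (∃ a ∈ Y, u ≤ a) → ((V.filter fun v => u ≤ v).card : ℝ) ≤
      ((K Y u : ℝ) * (n * (n + Fintype.card ι)) + 1) * ((Y.filter fun a => u ≤ a).card : ℝ) := by
  intro k
  induction k with
  | zero =>
    intro u hk hu
    have hV0 : (V.filter fun v => u ≤ v) = ∅ := by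
      rw [Finset.filter_eq_empty_iff]
      intro v hv huv
      obtain ⟨a, ha, hua⟩ := hu
      have hne : u ≠ v := by
        rintro rfl
        exact not_le hC hv ha hua
      have hex : ∃ j, u j < v j := by
        by_contra hcon
        push Not at hcon
        exact hne (le_antisymm huv hcon)
      obtain ⟨j, _⟩ := hex
      have : (j, a) ∈ ((univ : Finset (Fin n)) ×ˢ Y).filter fun c => u c.1 ≤ c.2 c.1 := by
        rw [Finset.mem_filter]
        exact ⟨by simp [ha], hua j⟩
      have := Finset.card_pos.2 ⟨_, this⟩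
      unfold K at hk
      omega
    rw [hV0]
    simp only [Finset.card_empty, Nat.cast_zero]
    positivity
  | succ k ih =>
    intro u hk hu
    rcases Nat.eq_zero_or_pos (K Y u) with hK0 | hKpos
    · have hV0 : (V.filter fun v => u ≤ v) = ∅ := by
        rw [Finset.filter_eq_empty_iff]
        intro v hv huv
        obtain ⟨a, ha, hua⟩ := hu
        have hne : u ≠ v := by
          rintro rfl
          exact not_le hC hv ha hua
        have hex : ∃ j, u j < v j := by
          by_contra hcon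
          push Not at hcon
          exact hne (le_antisymm huv hcon)
        obtain ⟨j, _⟩ := hex
        have : (j, a) ∈ ((univ : Finset (Fin n)) ×ˢ Y).filter fun c => u c.1 ≤ c.2 c.1 := by
          rw [Finset.mem_filter]
          exact ⟨by simp [ha], hua j⟩
        have := Finset.card_pos.2 ⟨_, this⟩
        unfold K at hK0
        omega
      rw [hV0]
      simp only [Finset.card_empty, Nat.cast_zero]
      positivity
    set E : ℝ := n * (n + Fintype.card ι) with hE
    have hE0 : 0 ≤ E := by positivity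
    set B : ℝ := ((K Y u : ℝ) - 1) * E + 1 with hB
    have hK1 : (1 : ℝ) ≤ K Y u := by exact_mod_cast hKpos
    have hB1 : 1 ≤ B := by
      have : 0 ≤ ((K Y u : ℝ) - 1) * E := mul_nonneg (by linarith) hE0
      linarith
    have hst := step hC u hu (B := B) (by linarith) ?_
    · refine hst.trans (le_of_eq ?_)
      rw [← hE, hB]
      ring
    intro z huz hzu
    rcases (V.filter fun v => z ≤ v ∧ z ≠ v).eq_empty_or_nonempty with he | ⟨v0, hv0⟩
    · rw [he]
      simp only [Finset.card_empty, Nat.cast_zero]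
      positivity
    rw [Finset.mem_filter] at hv0
    obtain ⟨hv0V, hzv0, hzv0n⟩ := hv0
    -- something of `Y` is above any point strictly below an element of `V`
    have habove : ∀ w v : Fin n → ℕ, v ∈ V → w ≤ v → w ≠ v → ∃ a ∈ Y, w ≤ a := by
      intro w v hv hwv hne
      have hex : ∃ j, w j < v j := by
        by_contra hcon
        push Not at hcon
        exact hne (le_antisymm hwv hcon)
      obtain ⟨j, hj⟩ := hex
      obtain ⟨a, ha, h1, h2⟩ := hC.cov v hv j (by omega)
      refine ⟨a, ha, fun k => ?_⟩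
      by_cases hk : k = j
      · subst hk
        have : w k ≤ a k := by omega
        exact this
      · exact (hwv k).trans (h2 k hk)
    obtain ⟨a0, ha0, hza0⟩ := habove z v0 hv0V hzv0 hzv0n
    have hYz : (1 : ℝ) ≤ ((Y.filter fun a => z ≤ a).card : ℝ) := by
      have : 0 < (Y.filter fun a => z ≤ a).card := Finset.card_pos.2 ⟨a0, by simp [ha0, hza0]⟩
      exact_mod_cast this
    set Vz := V.filter fun v => z ≤ v with hVz
    have hVzc : ((V.filter fun v => z ≤ v ∧ z ≠ v).card : ℝ) ≤ Vz.card := by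
      have : (V.filter fun v => z ≤ v ∧ z ≠ v) ⊆ Vz := by
        intro v hv
        rw [Finset.mem_filter] at hv
        rw [hVz, Finset.mem_filter]
        exact ⟨hv.1, hv.2.1⟩
      exact_mod_cast Finset.card_le_card this
    refine hVzc.trans ?_
    rcases Nat.lt_or_ge 1 Vz.card with h2 | h1
    · -- two elements: pass to the meet of all of them
      have hVzne : Vz.Nonempty := Finset.card_pos.1 (by omega)
      set w : Fin n → ℕ := fun j => Vz.inf' hVzne fun v => v j with hw
      have hzw : z ≤ w := by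
        intro j
        refine Finset.le_inf' _ _ fun v hv => ?_
        rw [hVz, Finset.mem_filter] at hv
        exact hv.2 j
      have hwv : ∀ v ∈ Vz, w ≤ v := fun v hv j => Finset.inf'_le _ hv
      have hVw : Vz = V.filter fun v => w ≤ v := by
        ext v
        constructor
        · intro hv
          rw [Finset.mem_filter]
          exact ⟨(Finset.mem_filter.1 (hVz ▸ hv)).1, hwv v hv⟩
        · intro hv
          rw [Finset.mem_filter] at hv
          rw [hVz, Finset.mem_filter]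
          exact ⟨hv.1, hzw.trans hv.2⟩
      obtain ⟨v1, hv1, v2, hv2, hv12⟩ := Finset.one_lt_card.1 h2
      have hwa : ∃ a ∈ Y, w ≤ a := by
        have hv1V : v1 ∈ V := (Finset.mem_filter.1 (hVz ▸ hv1)).1
        have hv2V : v2 ∈ V := (Finset.mem_filter.1 (hVz ▸ hv2)).1
        by_cases h : w = v1
        · exact habove w v2 hv2V (hwv v2 hv2) (by rw [h]; exact hv12)
        · exact habove w v1 hv1V (hwv v1 hv1) h
      have hKw : K Y w < K Y u := by
        have hex : ∃ j, u j < z j := by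
          by_contra hcon
          push Not at hcon
          exact hzu (le_antisymm hcon huz)
        obtain ⟨j, hj⟩ := hex
        obtain ⟨v, hv, hvj⟩ := Finset.exists_mem_eq_inf' hVzne fun v : Fin n → ℕ => v j
        have hwj : w j = v j := hvj
        have hzj : z j ≤ w j := hzw j
        obtain ⟨a, ha, h3, h4⟩ := hC.cov v (Finset.mem_filter.1 (hVz ▸ hv)).1 j (by omega)
        unfold K
        refine Finset.card_lt_card ?_
        rw [Finset.ssubset_iff_of_subset]
        · refine ⟨(j, a), ?_, ?_⟩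
          · rw [Finset.mem_filter]
            refine ⟨by simp [ha], ?_⟩
            show u j ≤ a j
            omega
          · rw [Finset.mem_filter]
            rintro ⟨_, h5⟩
            have h6 : w j ≤ a j := h5
            omega
        · intro x hx
          rw [Finset.mem_filter] at hx ⊢
          exact ⟨hx.1, ((huz.trans hzw) x.1).trans hx.2⟩
      have h5 := ih w (by omega) hwa
      rw [← hVw] at h5
      have h6 : ((Y.filter fun a => w ≤ a).card : ℝ) ≤ ((Y.filter fun a => z ≤ a).card : ℝ) := by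
        have : (Y.filter fun a => w ≤ a) ⊆ (Y.filter fun a => z ≤ a) := by
          intro a ha
          rw [Finset.mem_filter] at ha ⊢
          exact ⟨ha.1, hzw.trans ha.2⟩
        exact_mod_cast Finset.card_le_card this
      have h7 : (K Y w : ℝ) * E + 1 ≤ B := by
        have : (K Y w : ℝ) ≤ (K Y u : ℝ) - 1 := by
          have : (K Y w : ℝ) + 1 ≤ K Y u := by exact_mod_cast hKw
          linarith
        have := mul_le_mul_of_nonneg_right this hE0
        rw [hB]
        linarith
      refine h5.trans ?_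
      exact mul_le_mul h7 h6 (Nat.cast_nonneg _) (by linarith)
    · have h3 : (Vz.card : ℝ) ≤ 1 := by exact_mod_cast h1
      nlinarith

/-- the main lemma -/
theorem core (hC : Cov c p V Y t) (hY : Y.Nonempty) :
    (V.card : ℝ) ≤ (n : ℝ) ^ 2 * (n + Fintype.card ι) * (Y.card : ℝ) ^ 2 + Y.card := by
  classical
  obtain ⟨a0, ha0⟩ := hY
  have h := main_bound hC (K Y 0) 0 le_rfl ⟨a0, ha0, fun j => Nat.zero_le _⟩
  have e1 : (V.filter fun v => (0 : Fin n → ℕ) ≤ v) = V :=
    Finset.filter_true_of_mem fun v _ j => Nat.zero_le _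
  have e2 : (Y.filter fun v => (0 : Fin n → ℕ) ≤ v) = Y :=
    Finset.filter_true_of_mem fun v _ j => Nat.zero_le _
  have hK : (K Y (0 : Fin n → ℕ) : ℝ) ≤ n * Y.card := by
    have : K Y (0 : Fin n → ℕ) ≤ n * Y.card := by
      unfold K
      refine (Finset.card_filter_le _ _).trans ?_
      simp [Finset.card_product]
    exact_mod_cast this
  have h' : (V.card : ℝ) ≤ ((K Y (0 : Fin n → ℕ) : ℝ) * (n * (n + Fintype.card ι)) + 1) *
      (Y.card : ℝ) := by
    convert h using 3
    · exact e1.symm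
    · exact congrArg Finset.card e2.symm
  refine h'.trans ?_
  have hE0 : (0 : ℝ) ≤ n * (n + Fintype.card ι) := by positivity
  have := mul_le_mul_of_nonneg_right hK hE0
  have hYc : (0 : ℝ) ≤ (Y.card : ℝ) := Nat.cast_nonneg _
  calc ((K Y (0 : Fin n → ℕ) : ℝ) * (n * (n + Fintype.card ι)) + 1) * (Y.card : ℝ)
      ≤ ((n * Y.card : ℝ) * (n * (n + Fintype.card ι)) + 1) * (Y.card : ℝ) := by
        refine mul_le_mul_of_nonneg_right ?_ hYc
        linarith
    _ = _ := by ring

/-! ## The statement -/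

/-- the left side `f(x) = ∑_H a_H ∏_{j ∈ H} x_j ^ d_{H,j}` of the inequality; the multiset of sets
is indexed by `ι` -/
def poly {n : ℕ} {ι : Type} [Fintype ι] (H : ι → Finset (Fin n)) (a : ι → ℝ)
    (d : ι → Fin n → ℕ) (x : Fin n → ℕ) : ℝ :=
  ∑ i, a i * ∏ j ∈ H i, (x j : ℝ) ^ d i j

/-- the maximal feasible vectors of `f(x) ≤ t` in the box `0 ≤ x ≤ c` -/
def MaxFeasible {n : ℕ} (c : Fin n → ℕ) (f : (Fin n → ℕ) → ℝ) (t : ℝ) : Set (Fin n → ℕ) :=
  {x | x ≤ c ∧ f x ≤ t ∧ ∀ j, ¬ (x + Pi.single j 1 ≤ c) ∨ t < f (x + Pi.single j 1)}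

/-- `I(A)`: the vectors `x` of the box `0 ≤ x ≤ c` that are minimal with the property that
`x ≤ a` holds for no `a ∈ A` -/
def Inc {n : ℕ} (c : Fin n → ℕ) (A : Set (Fin n → ℕ)) : Set (Fin n → ℕ) :=
  {x | Minimal (fun y => y ≤ c ∧ ∀ a ∈ A, ¬ y ≤ a) x}

theorem result {n : ℕ} {ι : Type} [Fintype ι] (H : ι → Finset (Fin n)) (a : ι → ℝ)
    (d : ι → Fin n → ℕ) (t : ℝ) (c : Fin n → ℕ)
    (hH : ∀ i, (H i).Nonempty) (ha : ∀ i, 0 < a i) (hd : ∀ i, ∀ j ∈ H i, 1 ≤ d i j) (ht : 0 < t)
    (Y : Finset (Fin n → ℕ)) (hY : ∀ y ∈ Y, y ∈ MaxFeasible c (poly H a d) t) :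
    (Inc c (Y : Set (Fin n → ℕ)) ∩ Inc c (MaxFeasible c (poly H a d) t)).Finite ∧
    (Inc c (Y : Set (Fin n → ℕ)) ∩ Inc c (MaxFeasible c (poly H a d) t)).ncard ≤
      n ^ 2 * (n + Fintype.card ι) * Y.card ^ 2 + Y.card := by
  classical
  set f := poly H a d with hf
  set S := Inc c (Y : Set (Fin n → ℕ)) ∩ Inc c (MaxFeasible c f t) with hS
  have hSfin : S.Finite := by
    refine (Set.finite_Icc (0 : Fin n → ℕ) c).subset ?_
    intro x hx
    exact ⟨fun j => Nat.zero_le _, hx.1.1.1⟩
  refine ⟨hSfin, ?_⟩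
  set V := hSfin.toFinset with hV
  have hcard : S.ncard = V.card := Set.ncard_eq_toFinset_card _ hSfin
  set p : ι → Fin n → ℕ → ℝ := fun i j k => if j ∈ H i then (k : ℝ) ^ d i j else 1 with hp
  have hFf : ∀ x, F a p x = f x := by
    intro x
    unfold F
    rw [hf]
    unfold poly
    refine Finset.sum_congr rfl fun i _ => ?_
    congr 1
    simp only [hp]
    rw [Finset.prod_ite_mem, Finset.univ_inter]
  have hp0 : ∀ i j k, 0 ≤ p i j k := by
    intro i j k
    simp only [hp]
    split_ifs <;> positivity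
  have hpm : ∀ i j, Monotone (p i j) := by
    intro i j k l hkl
    simp only [hp]
    split_ifs
    · exact pow_le_pow_left₀ (Nat.cast_nonneg k) (by exact_mod_cast hkl) _
    · exact le_refl _
  have hfmono : ∀ x y : Fin n → ℕ, x ≤ y → f x ≤ f y := by
    intro x y hxy
    rw [← hFf, ← hFf]
    unfold F
    exact Finset.sum_le_sum fun i _ =>
      mul_le_mul_of_nonneg_left (prod_mono_of (hp0 i) (hpm i) hxy) (ha i).le
  have hVt : ∀ v ∈ V, t < f v := by
    intro v hv
    have hvS : v ∈ S := by simpa [hV] using hv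
    have hvF := hvS.2
    by_contra hcon
    push Not at hcon
    -- a maximal feasible vector above `v`
    have hfin : ({x : Fin n → ℕ | v ≤ x ∧ x ≤ c ∧ f x ≤ t}).Finite :=
      (Set.finite_Icc (0 : Fin n → ℕ) c).subset fun x hx => ⟨fun j => Nat.zero_le _, hx.2.1⟩
    obtain ⟨m, hm⟩ := hfin.exists_maximal ⟨v, le_refl _, hvF.1.1, hcon⟩
    refine hvF.1.2 m ⟨hm.prop.2.1, hm.prop.2.2, fun j => ?_⟩ hm.prop.1
    by_contra hcon2
    push Not at hcon2
    have hle : m ≤ m + Pi.single j 1 := fun k => Nat.le_add_right _ _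
    have := hm.2 ⟨hm.prop.1.trans hle, hcon2.1, hcon2.2⟩ hle
    have h2 := this j
    simp at h2
  have hVY : ∀ v ∈ V, ∀ y ∈ Y, ¬ v ≤ y := by
    intro v hv y hy
    have hvS : v ∈ S := by simpa [hV] using hv
    exact hvS.1.1.2 y (by exact_mod_cast hy)
  rcases Y.eq_empty_or_nonempty with hYe | hYne
  · -- the empty family
    have : V = ∅ := by
      rw [Finset.eq_empty_iff_forall_notMem]
      intro v hv
      have hvS : v ∈ S := by simpa [hV] using hv
      have h0 : v ≤ 0 := hvS.1.2 ⟨fun j => Nat.zero_le _, by simp [hYe]⟩ fun j => Nat.zero_le _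
      have h1 := hVt v hv
      have h2 : f v ≤ f 0 := hfmono _ _ h0
      have h3 : f 0 = 0 := by
        rw [hf]
        unfold poly
        refine Finset.sum_eq_zero fun i _ => ?_
        obtain ⟨j, hj⟩ := hH i
        have : ∏ j ∈ H i, (((0 : Fin n → ℕ) j : ℕ) : ℝ) ^ d i j = 0 := by
          refine Finset.prod_eq_zero hj ?_
          simp only [Pi.zero_apply, Nat.cast_zero]
          exact zero_pow (by have := hd i j hj; omega)
        rw [this, mul_zero]
      linarith
    rw [hcard, this]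
    simp
  · have hC : Cov a p V Y t := by
      refine ⟨fun i => (ha i).le, hp0, hpm, fun v hv => ?_, fun y hy => ?_, ?_⟩
      · rw [hFf]; exact hVt v hv
      · rw [hFf]; exact (hY y hy).2.1
      · intro v hv j hj
        have hvS : v ∈ S := by simpa [hV] using hv
        set w := Function.update v j (v j - 1) with hw
        have hwv : w ≤ v := by
          intro k
          by_cases hk : k = j
          · subst hk
            have : w k = v k - 1 := by simp [hw]
            have h2 : w k ≤ v k := by omega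
            exact h2
          · have : w k = v k := by simp [hw, hk]
            exact this.le
        have hnv : ¬ v ≤ w := by
          intro h
          have h1 : v j ≤ w j := h j
          have h2 : w j = v j - 1 := by simp [hw]
          omega
        have hex : ∃ y ∈ Y, w ≤ y := by
          by_contra hcon
          push Not at hcon
          exact hnv (hvS.1.2 ⟨hwv.trans hvS.1.1.1, fun y hy => hcon y (by exact_mod_cast hy)⟩
            hwv)
        obtain ⟨y, hy, hwy⟩ := hex
        have hoth : ∀ k, k ≠ j → v k ≤ y k := by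
          intro k hk
          have h1 : w k ≤ y k := hwy k
          have h2 : w k = v k := by simp [hw, hk]
          omega
        have hnot := hVY v hv y hy
        have hj2 : ¬ v j ≤ y j := by
          intro h
          refine hnot fun k => ?_
          by_cases hk : k = j
          · rw [hk]; exact h
          · exact hoth k hk
        have h1 : w j ≤ y j := hwy j
        have h2 : w j = v j - 1 := by simp [hw]
        exact ⟨y, hy, by omega, hoth⟩
    have := core hC hYne
    rw [hcard]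
    exact_mod_cast this

end Pool.Agent.Results.MP_51bff2_lc.DualBound
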